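import Pool.Agent.helper62.QU.CA1

set_option autoImplicit false

open scoped MatrixGroups ContDiff Topology UpperHalfPlane
open UpperHalfPlane MeasureTheory Filter Set

namespace Pool.Agent.QU

theorem CA2_aux {E : Type} [NormedAddCommGroup E] [NormedSpace ℝ E] (φ : ℍ → E) (h : CD 2 φ) (z : ℍ)
    (u v : ℂ) (ψ : ℍ → E) (hψ : ∀ w ∈ CA1_U, onC ψ w = w.im • fderiv ℝ (onC φ) w u) :
    z.im • fderiv ℝ (onC ψ) (z : ℂ) v =
      z.im • (z.im • fderiv ℝ (fderiv ℝ (onC φ)) (z : ℂ) v u + v.im • fderiv ℝ (onC φ) (z : ℂ) u) := by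
  have e1 : onC ψ =ᶠ[𝓝 (z : ℂ)] fun w => Complex.imCLM w • fderiv ℝ (onC φ) w u := by
    filter_upwards [CA1_open.mem_nhds (CA1_mem z)] with w hw
    exact hψ w hw
  have h2 : ContDiffAt ℝ 2 (onC φ) (z : ℂ) := h.contDiffAt (CA1_open.mem_nhds (CA1_mem z))
  have h1 : ContDiffAt ℝ 1 (fderiv ℝ (onC φ)) (z : ℂ) :=
    h2.fderiv_right (m := 1) (by norm_num)
  have hd : DifferentiableAt ℝ (fderiv ℝ (onC φ)) (z : ℂ) := h1.differentiableAt (by norm_num)
  have hd' : DifferentiableAt ℝ (fun w => fderiv ℝ (onC φ) w u) (z : ℂ) :=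
    hd.clm_apply (differentiableAt_const u)
  rw [e1.fderiv_eq, fderiv_fun_smul Complex.imCLM.differentiableAt hd', fderiv_clm_apply hd
    (differentiableAt_const u)]
  simp

theorem CA2 (_h1 : CA1_stmt) : CA2_stmt := by
  intro E _ _ φ h z
  have hX := fun (w : ℂ) (hw : w ∈ CA1_U) => CA1_dXon φ hw
  have hY := fun (w : ℂ) (hw : w ∈ CA1_U) => CA1_dYon φ hw
  have eXX : dX (dX φ) z = _ := CA2_aux φ h z 1 1 (dX φ) hX
  have eYX : dY (dX φ) z = _ := CA2_aux φ h z 1 Complex.I (dX φ) hX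
  have eXY : dX (dY φ) z = _ := CA2_aux φ h z Complex.I 1 (dY φ) hY
  have eYY : dY (dY φ) z = _ := CA2_aux φ h z Complex.I Complex.I (dY φ) hY
  have h2 : ContDiffAt ℝ 2 (onC φ) (z : ℂ) := h.contDiffAt (CA1_open.mem_nhds (CA1_mem z))
  have hs : IsSymmSndFDerivAt ℝ (onC φ) (z : ℂ) := h2.isSymmSndFDerivAt (by simp)
  have hs1 := hs.eq Complex.I 1
  constructor
  · rw [eYX, eXY, hs1]
    simp only [Complex.I_im, Complex.one_im, one_smul, zero_smul, add_zero, smul_add]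
    rfl
  · rw [eXX, eYY]
    unfold lap dY
    simp only [Complex.I_im, Complex.one_im, one_smul, zero_smul, add_zero, smul_add, smul_smul]
    rw [← pow_two]
    module

end Pool.Agent.QU
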